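import Pool.Agent.Lib.MP_2e793b_nt.Iface

/-!
MP_2e793b_nt, module CNT: under quadratic growth every unbounded letter has, from some point on,
exactly one unbounded letter in its image.
-/

set_option autoImplicit false

namespace Pool.Agent.Lib.MP_2e793b_nt.H88

open Finset
open scoped Classical

variable {k : ℕ} {σ : Fin k → List (Fin k)}

theorem iter_append (n : ℕ) (u v : List (Fin k)) :
    (F σ)^[n] (u ++ v) = (F σ)^[n] u ++ (F σ)^[n] v := by
  induction n generalizing u v with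
  | zero => rfl
  | succ n ih =>
    rw [Function.iterate_succ_apply, Function.iterate_succ_apply, Function.iterate_succ_apply, ← ih]
    show (F σ)^[n] ((u ++ v).flatMap σ) = (F σ)^[n] (u.flatMap σ ++ v.flatMap σ)
    rw [List.flatMap_append]

theorem iter_nil (n : ℕ) : (F σ)^[n] [] = [] := by
  induction n with
  | zero => rfl
  | succ n ih => rw [Function.iterate_succ_apply]; exact ih

theorem iter_cons (n : ℕ) (a : Fin k) (v : List (Fin k)) :
    (F σ)^[n] (a :: v) = (F σ)^[n] [a] ++ (F σ)^[n] v := by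
  rw [← iter_append]; rfl

theorem iter_succ_single (n : ℕ) (a : Fin k) : (F σ)^[n + 1] [a] = (F σ)^[n] (σ a) := by
  rw [Function.iterate_succ_apply]
  congr 1
  show [a].flatMap σ = σ a
  simp

theorem bdd_word {v : List (Fin k)} (h : ∀ z ∈ v, Bdd σ z) :
    ∃ B : ℕ, ∀ n : ℕ, ((F σ)^[n] v).length ≤ B := by
  induction v with
  | nil => exact ⟨0, fun n => by rw [iter_nil]; exact le_rfl⟩
  | cons a v ih =>
    obtain ⟨B, hB⟩ := ih (fun y hy => h y (List.mem_cons_of_mem _ hy))
    obtain ⟨C, hC⟩ := h a List.mem_cons_self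
    refine ⟨C + B, fun n => ?_⟩
    rw [iter_cons, List.length_append]
    exact Nat.add_le_add (hC n) (hB n)

theorem unb_step {y : Fin k} (h : ¬ Bdd σ y) : ∃ z ∈ σ y, ¬ Bdd σ z := by
  by_contra hc
  push Not at hc
  obtain ⟨B, hB⟩ := bdd_word hc
  refine h ⟨B + 1, fun n => ?_⟩
  cases n with
  | zero => simp
  | succ n => rw [iter_succ_single]; exact (hB n).trans (Nat.le_succ _)

/-- the number of unbounded letters -/
noncomputable def ub (σ : Fin k → List (Fin k)) (v : List (Fin k)) : ℕ :=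
  v.countP (fun y => decide (¬ Bdd σ y))

theorem ub_append (u v : List (Fin k)) : ub σ (u ++ v) = ub σ u + ub σ v :=
  List.countP_append

theorem ub_cons (a : Fin k) (v : List (Fin k)) : ub σ (a :: v) = ub σ [a] + ub σ v := by
  rw [← ub_append]; rfl

theorem ub_single_bdd {a : Fin k} (h : Bdd σ a) : ub σ [a] = 0 := by
  simp [ub, h]

theorem ub_single_unb {a : Fin k} (h : ¬ Bdd σ a) : ub σ [a] = 1 := by
  simp [ub, h]

theorem F_cons (a : Fin k) (v : List (Fin k)) : F σ (a :: v) = σ a ++ F σ v := by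
  show (a :: v).flatMap σ = σ a ++ v.flatMap σ
  rw [List.flatMap_cons]

theorem ub_step_single (a : Fin k) : ub σ [a] ≤ ub σ (σ a) := by
  by_cases h : Bdd σ a
  · rw [ub_single_bdd h]; exact Nat.zero_le _
  · rw [ub_single_unb h]
    obtain ⟨z, hz, hm⟩ := unb_step h
    show 0 < _
    rw [ub, List.countP_pos_iff]
    exact ⟨z, hz, by simpa using hm⟩

theorem ub_step (v : List (Fin k)) : ub σ v ≤ ub σ (F σ v) := by
  induction v with
  | nil => exact Nat.zero_le _
  | cons a v ih =>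
    rw [F_cons, ub_append, ub_cons]
    exact Nat.add_le_add (ub_step_single a) ih

theorem ub_eq_mem {v : List (Fin k)} (h : ub σ (F σ v) = ub σ v) :
    ∀ y ∈ v, ub σ (σ y) = ub σ [y] := by
  induction v with
  | nil => intro y hy; exact absurd hy List.not_mem_nil
  | cons a v ih =>
    rw [F_cons, ub_append, ub_cons] at h
    have h1 := ub_step_single (σ := σ) a
    have h2 := ub_step (σ := σ) v
    intro y hy
    rcases List.mem_cons.1 hy with rfl | hy
    · omega
    · exact ih (by omega) y hy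

theorem split_one {v : List (Fin k)} (h : ub σ v = 1) :
    ∃ (s : List (Fin k)) (z : Fin k) (t : List (Fin k)), v = s ++ [z] ++ t ∧ ¬ Bdd σ z ∧
      (∀ y ∈ s, Bdd σ y) ∧ ∀ y ∈ t, Bdd σ y := by
  have h0 : 0 < ub σ v := by omega
  rw [ub, List.countP_pos_iff] at h0
  obtain ⟨z, hz, hm⟩ := h0
  have hm' : ¬ Bdd σ z := by simpa using hm
  obtain ⟨s, t, rfl⟩ := List.append_of_mem hz
  rw [ub_append, ub_cons, ub_single_unb hm'] at h
  have hs : ub σ s = 0 := by omega
  have ht : ub σ t = 0 := by omega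
  rw [ub, List.countP_eq_zero] at hs ht
  exact ⟨s, z, t, by simp, hm', fun y hy => by simpa using hs y hy,
    fun y hy => by simpa using ht y hy⟩

theorem ub_growth (hU : UnbStmt) (i : ℕ) (v : List (Fin k)) :
    ub σ v * i ≤ k * ((F σ)^[i] v).length := by
  induction v with
  | nil => simp [ub]
  | cons a v ih =>
    rw [iter_cons, List.length_append, ub_cons, Nat.add_mul, Nat.mul_add]
    refine Nat.add_le_add ?_ ih
    by_cases h : Bdd σ a
    · rw [ub_single_bdd h, Nat.zero_mul]; exact Nat.zero_le _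
    · rw [ub_single_unb h, Nat.one_mul]
      exact (hU k σ a h i).le

theorem ub_bound (hU : UnbStmt) (w : List (Fin k)) (K : ℕ)
    (hK : ∀ n : ℕ, ∑ j ∈ range n, ((F σ)^[j] w).length ≤ K * (n + 1) ^ 2) (j : ℕ) :
    ub σ ((F σ)^[j] w) ≤ 2 * k * K := by
  by_contra hc
  obtain ⟨A, hA⟩ : ∃ A : ℕ, A = 2 * k * K := ⟨_, rfl⟩
  obtain ⟨c, hcj⟩ : ∃ c : ℕ, c = j + 1 := ⟨_, rfl⟩
  obtain ⟨m, hm⟩ : ∃ m : ℕ, m = A + 2 + 2 * A * c + A * c ^ 2 := ⟨_, rfl⟩
  have h1 : ∑ i ∈ range m, (A + 1) * i ≤ k * (K * (m + c) ^ 2) := by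
    calc ∑ i ∈ range m, (A + 1) * i
        ≤ ∑ i ∈ range m, k * ((F σ)^[j + i] w).length := by
          refine Finset.sum_le_sum fun i _ => ?_
          have h2 := ub_growth (σ := σ) hU i ((F σ)^[j] w)
          rw [← Function.iterate_add_apply, Nat.add_comm i j] at h2
          refine le_trans ?_ h2
          exact Nat.mul_le_mul_right _ (by omega)
      _ = k * ∑ i ∈ range m, ((F σ)^[j + i] w).length := by rw [Finset.mul_sum]
      _ ≤ k * ∑ i ∈ range (j + m), ((F σ)^[i] w).length := by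
          refine Nat.mul_le_mul_left _ ?_
          rw [Finset.sum_range_add]
          exact Nat.le_add_left _ _
      _ ≤ k * (K * (m + c) ^ 2) := by
          refine Nat.mul_le_mul_left _ ?_
          have := hK (j + m)
          have e : j + m + 1 = m + c := by omega
          rwa [e] at this
  rw [← Finset.mul_sum] at h1
  have h3 : (∑ i ∈ range m, i) * 2 = m * (m - 1) := Finset.sum_range_id_mul_two m
  have h4 : (A + 1) * (m * (m - 1)) ≤ A * (m + c) ^ 2 := by
    calc (A + 1) * (m * (m - 1)) = ((A + 1) * ∑ i ∈ range m, i) * 2 := by rw [← h3]; ring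
      _ ≤ (k * (K * (m + c) ^ 2)) * 2 := Nat.mul_le_mul_right _ h1
      _ = A * (m + c) ^ 2 := by rw [hA]; ring
  obtain ⟨r, hr⟩ : ∃ r : ℕ, m = r + 1 := ⟨m - 1, by omega⟩
  rw [hr, Nat.add_sub_cancel] at h4
  have h5 : r = A + 1 + 2 * A * c + A * c ^ 2 := by omega
  have h9 : A * c ^ 2 < (r + 1) * (1 + A * c ^ 2) := by
    have h10 : (r + 1) * (1 + A * c ^ 2) = (r + 1) + r * (A * c ^ 2) + A * c ^ 2 := by ring
    omega
  have h6 : (A + 1) * ((r + 1) * r) = A * (r + 1 + c) ^ 2 +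
      ((r + 1) * (1 + A * c ^ 2) - A * c ^ 2) := by
    have h7 : A * c ^ 2 ≤ (r + 1) * (1 + A * c ^ 2) := h9.le
    zify [h7]
    have h8 : (r : ℤ) = A + 1 + 2 * A * c + A * c ^ 2 := by exact_mod_cast h5
    rw [h8]
    ring
  omega

/-- Module CNT. -/
theorem cnt (hU : UnbStmt) : CntStmt := by
  intro k σ w K hK
  obtain ⟨s, hs⟩ : ∃ s : Set ℕ, s = {m | ∃ j, ub σ ((F σ)^[j] w) = m} := ⟨_, rfl⟩
  have hne : s.Nonempty := by rw [hs]; exact ⟨_, 0, rfl⟩
  have hbd : BddAbove s := by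
    refine ⟨2 * k * K, ?_⟩
    rintro m hm
    rw [hs] at hm
    obtain ⟨j, rfl⟩ := hm
    exact ub_bound hU w K hK j
  have hmem := Nat.sSup_mem hne hbd
  have hle : ∀ j, ub σ ((F σ)^[j] w) ≤ sSup s := fun j =>
    le_csSup hbd (by rw [hs]; exact ⟨j, rfl⟩)
  rw [hs] at hmem
  obtain ⟨J, hJ⟩ := hmem
  rw [← hs] at hJ
  have hmono : ∀ j, ub σ ((F σ)^[j] w) ≤ ub σ ((F σ)^[j + 1] w) := by
    intro j
    rw [Function.iterate_succ_apply']
    exact ub_step _
  have hconst : ∀ j, J ≤ j → ub σ ((F σ)^[j] w) = sSup s := by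
    intro j hj
    refine le_antisymm (hle j) ?_
    rw [← hJ]
    exact monotone_nat_of_le_succ hmono hj
  refine ⟨J, fun j hj y hy hby => ?_⟩
  have h1 : ub σ (F σ ((F σ)^[j] w)) = ub σ ((F σ)^[j] w) := by
    rw [← Function.iterate_succ_apply' (F σ) j w, hconst j hj, hconst (j + 1) (by omega)]
  have h2 := ub_eq_mem h1 y hy
  rw [ub_single_unb hby] at h2
  exact split_one h2

end Pool.Agent.Lib.MP_2e793b_nt.H88
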